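import Pool.Agent.Work.MP_9bb3e3_co.Fubini

/-!
# The closed metric polytope over a finite vertex set
-/

namespace Pool.Agent.Work.MP_9bb3e3_co

open MeasureTheory Set

/-- Unordered pairs of distinct elements. -/
abbrev E (V : Type*) := {e : Sym2 V // ¬ e.IsDiag}

section

variable {V : Type*} [DecidableEq V]

/-- The distance read off from a vector of coordinates. -/
noncomputable def D (d : E V → ℝ) (u v : V) : ℝ :=
  if h : u = v then 0 else d ⟨s(u, v), by simpa using h⟩

lemma D_of_ne (d : E V → ℝ) {u v : V} (h : u ≠ v) :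
    D d u v = d ⟨s(u, v), by simpa using h⟩ := by
  simp [D, h]

lemma D_self (d : E V → ℝ) (u : V) : D d u u = 0 := by simp [D]

lemma D_comm (d : E V → ℝ) (u v : V) : D d u v = D d v u := by
  unfold D
  by_cases h : u = v
  · simp [h]
  · have h' : ¬ v = u := fun h2 => h h2.symm
    simp only [h, h', dite_false]
    congr 1
    ext1
    exact Sym2.eq_swap

/-- Replace the coordinate at `{a, b}` by `t`. -/
noncomputable def upd (d : E V → ℝ) (a b : V) (t : ℝ) : E V → ℝ :=
  fun e => if e.1 = s(a, b) then t else d e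

lemma upd_eq_update (d : E V → ℝ) {a b : V} (h : ¬ (s(a, b)).IsDiag) (t : ℝ) :
    upd d a b t = Function.update d ⟨s(a, b), h⟩ t := by
  funext e
  unfold upd Function.update
  by_cases he : e.1 = s(a, b)
  · have : e = ⟨s(a, b), h⟩ := Subtype.ext he
    simp [this]
  · have : ¬ e = ⟨s(a, b), h⟩ := fun h2 => he (congrArg Subtype.val h2)
    simp [he, this]

lemma upd_comm (d : E V → ℝ) (a b : V) (t : ℝ) : upd d a b t = upd d b a t := by
  unfold upd
  rw [Sym2.eq_swap]

lemma D_upd (d : E V → ℝ) (a b : V) (t : ℝ) {u v : V} (h : u ≠ v) :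
    D (upd d a b t) u v = if s(u, v) = s(a, b) then t else D d u v := by
  rw [D_of_ne _ h, D_of_ne _ h]
  rfl

lemma D_upd_self (d : E V → ℝ) {a b : V} (h : a ≠ b) (t : ℝ) :
    D (upd d a b t) a b = t := by
  rw [D_upd _ _ _ _ h]
  simp

lemma D_upd_other (d : E V → ℝ) (a b : V) (t : ℝ) {u v : V}
    (h2 : s(u, v) ≠ s(a, b)) : D (upd d a b t) u v = D d u v := by
  by_cases h : u = v
  · subst h
    simp [D_self]
  · rw [D_upd _ _ _ _ h, if_neg h2]

lemma D_upd_left (d : E V → ℝ) (a b : V) (t : ℝ) {c : V} (ha : c ≠ a) (hb : c ≠ b) :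
    D (upd d a b t) a c = D d a c := by
  apply D_upd_other
  intro h
  rw [Sym2.eq_iff] at h
  rcases h with ⟨_, h⟩ | ⟨_, h⟩
  · exact hb h
  · exact ha h

lemma D_upd_right (d : E V → ℝ) (a b : V) (t : ℝ) {c : V} (ha : c ≠ a) (hb : c ≠ b) :
    D (upd d a b t) b c = D d b c := by
  apply D_upd_other
  intro h
  rw [Sym2.eq_iff] at h
  rcases h with ⟨_, h⟩ | ⟨_, h⟩
  · exact hb h
  · exact ha h

/-- The closed metric polytope. -/
def K (V : Type*) [DecidableEq V] : Set (E V → ℝ) :=
  {d | (∀ u v, u ≠ v → 0 ≤ D d u v ∧ D d u v ≤ 2) ∧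
    ∀ u v w, u ≠ v → u ≠ w → v ≠ w → D d u v ≤ D d u w + D d v w}

lemma K.nonneg {d : E V → ℝ} (h : d ∈ K V) (u v : V) : 0 ≤ D d u v := by
  by_cases huv : u = v
  · subst huv; simp [D_self]
  · exact (h.1 u v huv).1

lemma K.le_two {d : E V → ℝ} (h : d ∈ K V) (u v : V) : D d u v ≤ 2 := by
  by_cases huv : u = v
  · subst huv; simp [D_self]
  · exact (h.1 u v huv).2

lemma K.tri {d : E V → ℝ} (h : d ∈ K V) (u v w : V) : D d u v ≤ D d u w + D d v w := by
  by_cases huv : u = v
  · subst huv
    rw [D_self]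
    have := K.nonneg h u w
    linarith
  by_cases huw : u = w
  · subst huw
    rw [D_self, D_comm d v u]
    linarith
  by_cases hvw : v = w
  · subst hvw
    rw [D_self]
    linarith
  exact h.2 u v w huv huw hvw

/-- The fibre of `K` over `d`: if `upd d a b t₀ ∈ K` for one `t₀` then `upd d a b t ∈ K` iff the
inequalities involving the coordinate `{a,b}` hold. -/
lemma mem_K_upd_iff {a b : V} (hab : a ≠ b) {d : E V → ℝ} {t₀ : ℝ} (h0 : upd d a b t₀ ∈ K V)
    (t : ℝ) :
    upd d a b t ∈ K V ↔ (0 ≤ t ∧ t ≤ 2) ∧ ∀ c, c ≠ a → c ≠ b →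
      t ≤ D d a c + D d b c ∧ D d a c - D d b c ≤ t ∧ D d b c - D d a c ≤ t := by
  constructor
  · intro h
    refine ⟨?_, ?_⟩
    · have h1 := K.nonneg h a b
      have h2 := K.le_two h a b
      rw [D_upd_self _ hab] at h1 h2
      exact ⟨h1, h2⟩
    · intro c hca hcb
      have h1 := K.tri h a b c
      have h2 := K.tri h a c b
      have h3 := K.tri h b c a
      rw [D_comm _ c b] at h2
      rw [D_comm _ b a, D_comm _ c a] at h3
      rw [D_upd_self _ hab, D_upd_left _ _ _ _ hca hcb, D_upd_right _ _ _ _ hca hcb] at h1 h2 h3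
      exact ⟨h1, by linarith, by linarith⟩
  · rintro ⟨⟨ht0, ht2⟩, hc⟩
    refine ⟨?_, ?_⟩
    · intro u v huv
      by_cases he : s(u, v) = s(a, b)
      · rw [D_upd _ _ _ _ huv, if_pos he]
        exact ⟨ht0, ht2⟩
      · rw [D_upd_other _ _ _ _ he]
        have := h0.1 u v huv
        rwa [D_upd_other _ _ _ _ he] at this
    · intro u v w huv huw hvw
      by_cases h1 : s(u, v) = s(a, b)
      · rw [D_upd _ _ _ _ huv, if_pos h1]
        rw [Sym2.eq_iff] at h1
        rcases h1 with ⟨rfl, rfl⟩ | ⟨rfl, rfl⟩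
        · rw [D_upd_left _ _ _ _ huw.symm hvw.symm, D_upd_right _ _ _ _ huw.symm hvw.symm]
          exact (hc w huw.symm hvw.symm).1
        · rw [D_upd_left _ _ _ _ hvw.symm huw.symm, D_upd_right _ _ _ _ hvw.symm huw.symm]
          have := (hc w hvw.symm huw.symm).1
          linarith
      by_cases h2 : s(u, w) = s(a, b)
      · rw [D_upd _ _ _ _ huw, if_pos h2]
        rw [Sym2.eq_iff] at h2
        rcases h2 with ⟨rfl, rfl⟩ | ⟨rfl, rfl⟩
        · rw [D_upd_left _ _ _ _ huv.symm hvw, D_comm _ v w, D_upd_right _ _ _ _ huv.symm hvw]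
          have := (hc v huv.symm hvw).2.1
          linarith
        · rw [D_upd_right _ _ _ _ hvw huv.symm, D_comm _ v w, D_upd_left _ _ _ _ hvw huv.symm]
          have := (hc v hvw huv.symm).2.2
          linarith
      by_cases h3 : s(v, w) = s(a, b)
      · rw [D_upd _ _ _ _ hvw, if_pos h3]
        rw [Sym2.eq_iff] at h3
        rcases h3 with ⟨rfl, rfl⟩ | ⟨rfl, rfl⟩
        · rw [D_comm _ u v, D_comm _ u w, D_upd_left _ _ _ _ huv huw,
            D_upd_right _ _ _ _ huv huw]
          have := (hc u huv huw).2.1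
          linarith
        · rw [D_comm _ u v, D_comm _ u w, D_upd_left _ _ _ _ huw huv,
            D_upd_right _ _ _ _ huw huv]
          have := (hc u huw huv).2.2
          linarith
      rw [D_upd_other _ _ _ _ h1, D_upd_other _ _ _ _ h2, D_upd_other _ _ _ _ h3]
      have := h0.2 u v w huv huw hvw
      rwa [D_upd_other _ _ _ _ h1, D_upd_other _ _ _ _ h2, D_upd_other _ _ _ _ h3] at this

/-- Reading off a distance, as a linear functional. -/
noncomputable def DL (u v : V) : (E V → ℝ) →ₗ[ℝ] ℝ where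
  toFun d := D d u v
  map_add' x y := by
    unfold D
    split <;> simp
  map_smul' c x := by
    unfold D
    split <;> simp

@[simp] lemma DL_apply (u v : V) (d : E V → ℝ) : DL u v d = D d u v := rfl

lemma measurable_D (u v : V) : Measurable (fun d : E V → ℝ => D d u v) := by
  unfold D
  by_cases h : u = v
  · simp [h]
  · simp only [h, dite_false]
    exact measurable_pi_apply _

lemma measurable_upd (a b : V) {α : Type*} [MeasurableSpace α] {f : α → E V → ℝ} {t : α → ℝ}
    (hf : Measurable f) (ht : Measurable t) : Measurable (fun x => upd (f x) a b (t x)) := by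
  refine measurable_pi_lambda _ fun e => ?_
  unfold upd
  by_cases h : e.1 = s(a, b)
  · simpa [h] using ht
  · simp only [h, if_false]
    exact (measurable_pi_apply e).comp hf

lemma measurableSet_K [Finite V] : MeasurableSet (K V) := by
  unfold K
  have h1 : ∀ u v : V, Measurable (fun d : E V → ℝ => D d u v) := measurable_D
  have e : {d : E V → ℝ | (∀ u v, u ≠ v → 0 ≤ D d u v ∧ D d u v ≤ 2) ∧
      ∀ u v w, u ≠ v → u ≠ w → v ≠ w → D d u v ≤ D d u w + D d v w}
      = (⋂ u : V, ⋂ v : V, {d | u ≠ v → 0 ≤ D d u v ∧ D d u v ≤ 2}) ∩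
        (⋂ u : V, ⋂ v : V, ⋂ w : V, {d | u ≠ v → u ≠ w → v ≠ w →
          D d u v ≤ D d u w + D d v w}) := by
    ext d
    simp
  rw [e]
  refine MeasurableSet.inter ?_ ?_
  · refine MeasurableSet.iInter fun u => MeasurableSet.iInter fun v => ?_
    by_cases h : u ≠ v
    · simp only [h, ne_eq, not_false_eq_true, forall_const]
      exact (measurableSet_le measurable_const (h1 u v)).inter
        (measurableSet_le (h1 u v) measurable_const)
    · have : {d : E V → ℝ | u ≠ v → 0 ≤ D d u v ∧ D d u v ≤ 2} = univ := by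
        ext d; simp; intro h'; exact absurd h' h
      rw [this]; exact MeasurableSet.univ
  · refine MeasurableSet.iInter fun u => MeasurableSet.iInter fun v =>
      MeasurableSet.iInter fun w => ?_
    by_cases h : u ≠ v ∧ u ≠ w ∧ v ≠ w
    · have : {d : E V → ℝ | u ≠ v → u ≠ w → v ≠ w → D d u v ≤ D d u w + D d v w}
        = {d : E V → ℝ | D d u v ≤ D d u w + D d v w} := by
        ext d; simp [h.1, h.2.1, h.2.2]
      rw [this]
      exact measurableSet_le (h1 u v) ((h1 u w).add (h1 v w))
    · have : {d : E V → ℝ | u ≠ v → u ≠ w → v ≠ w → D d u v ≤ D d u w + D d v w} = univ := by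
        ext d
        simp only [Set.mem_ofPred_eq, mem_univ, iff_true]
        intro a b c
        exact absurd ⟨a, b, c⟩ h
      rw [this]; exact MeasurableSet.univ

end

end Pool.Agent.Work.MP_9bb3e3_co
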