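import Pool.Agent.Work.MP_9bb3e3_co.HiLo

/-!
# Decomposition of the cylinder according to which bound is attained
-/

namespace Pool.Agent.Work.MP_9bb3e3_co

open MeasureTheory Set

section

variable {V : Type*} [DecidableEq V] [Fintype V]

lemma decomp_general {a b : V} {J : Type*} [Fintype J] (f : J → (E V → ℝ) → ℝ)
    (hf : ∀ j, Measurable (f j)) (h : (E V → ℝ) → ℝ)
    (h1 : ∀ d ∈ Cyl a b, ∃ j, upd d a b (f j d) ∈ K V)
    (h2 : ∀ j, ∀ d ∈ Piece a b (f j), h d = f j d)
    (h3 : ∀ i j, i ≠ j → volume {d : E V → ℝ | f i d = f j d} = 0) (ψ : ℝ → ENNReal) :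
    ∫⁻ d in Cyl a b, ψ (h d) = ∑ j, ∫⁻ d in Piece a b (f j), ψ (f j d) := by
  classical
  have hU : Cyl a b = ⋃ j, Piece a b (f j) := by
    ext d
    rw [mem_iUnion]
    constructor
    · intro hd
      obtain ⟨j, hj⟩ := h1 d hd
      exact ⟨j, hd.1, hj⟩
    · rintro ⟨j, hj⟩
      exact ⟨hj.1, _, hj.2⟩
  rw [hU, lintegral_iUnion₀, tsum_fintype]
  · refine Finset.sum_congr rfl fun j _ => ?_
    refine setLIntegral_congr_fun (measurableSet_Piece a b (hf j)) ?_
    intro d hd
    simp only
    rw [h2 j d hd]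
  · intro j
    exact (measurableSet_Piece a b (hf j)).nullMeasurableSet
  · intro i j hij
    refine measure_mono_null ?_ (h3 i j hij)
    intro d hd
    have e1 := h2 i d hd.1
    have e2 := h2 j d hd.2
    exact e1.symm.trans e2

/-- Top piece. -/
def Top (a b : V) : Set (E V → ℝ) := Piece a b (fun _ => 2)

/-- Upper piece. -/
def Up (a b c : V) : Set (E V → ℝ) := Piece a b (fun d => D d a c + D d b c)

/-- Lower piece. -/
def Lo (a b c : V) : Set (E V → ℝ) := Piece a b (fun d => D d a c - D d b c)

omit [Fintype V] in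
lemma D_test {a c : V} (_hac : a ≠ c) {u v : V} (h : s(u, v) ≠ s(a, c)) :
    D (upd (0 : E V → ℝ) a c 1) u v = 0 := by
  rw [D_upd_other _ _ _ _ h]
  unfold D
  split <;> simp

omit [Fintype V] in
lemma D_test_self {a c : V} (hac : a ≠ c) :
    D (upd (0 : E V → ℝ) a c 1) a c = 1 := D_upd_self _ hac _

lemma hi_decomp {a b : V} (hab : a ≠ b) (ψ : ℝ → ENNReal) :
    ∫⁻ d in Cyl a b, ψ (hi a b d) = ψ 2 * volume (Top a b) +
      ∑ c : {c : V // c ≠ a ∧ c ≠ b}, ∫⁻ d in Up a b c, ψ (D d a c + D d b c) := by
  classical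
  let f : Option {c : V // c ≠ a ∧ c ≠ b} → (E V → ℝ) → ℝ := fun o =>
    match o with
    | none => fun _ => 2
    | some c => fun d => D d a c + D d b c
  have hf : ∀ j, Measurable (f j) := by
    rintro (_ | c)
    · exact measurable_const
    · exact (measurable_D a c).add (measurable_D b c)
  have key := decomp_general (a := a) (b := b) f hf (hi a b) ?_ ?_ ?_ ψ
  · rw [key, Fintype.sum_option]
    congr 1
    simp only [f, lintegral_const, Measure.restrict_apply MeasurableSet.univ, univ_inter]
    rfl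
  · intro d hd
    have hd' := hd
    rw [Cyl_eq_Piece_hi hab] at hd'
    have h1 := hd'.2
    obtain ⟨c, _, hc⟩ := Finset.exists_mem_eq_inf' (univ_ne a) (F a b d)
    have hc' : hi a b d = F a b d c := hc
    rw [hc'] at h1
    unfold F at h1
    split_ifs at h1 with h
    · exact ⟨none, h1⟩
    · push Not at h
      exact ⟨some ⟨c, h⟩, h1⟩
  · rintro (_ | c) d hd
    · have h1 := hd.2
      have h2 := (mem_K_iff_lo_hi hab h1 2).1 h1
      exact le_antisymm (hi_le_two a b d) h2.2
    · have h1 := hd.2
      have h2 := (mem_K_iff_lo_hi hab h1 _).1 h1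
      have h3 : hi a b d ≤ F a b d c := Finset.inf'_le _ (Finset.mem_univ _)
      simp only [F, c.2.1, c.2.2, or_self, if_false] at h3
      exact le_antisymm h3 h2.2
  · have hnull : ∀ c : {c : V // c ≠ a ∧ c ≠ b},
        volume {d : E V → ℝ | D d a c + D d b c = 2} = 0 := by
      intro c
      refine volume_level_set (DL a c.1 + DL b c.1) ⟨upd 0 a c.1 1, ?_⟩ 2
      simp only [LinearMap.add_apply, DL_apply]
      rw [D_test_self c.2.1.symm, D_test c.2.1.symm]
      · norm_num
      · rw [Ne, Sym2.eq_iff]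
        rintro (⟨h, _⟩ | ⟨_, h⟩)
        · exact hab h.symm
        · exact c.2.1 h
    rintro (_ | c) (_ | c') hcc
    · exact absurd rfl hcc
    · have : {d : E V → ℝ | f none d = f (some c') d} = {d : E V → ℝ | D d a c' + D d b c' = 2} := by
        ext d
        exact eq_comm
      rw [this]
      exact hnull c'
    · exact hnull c
    · have hne : c.1 ≠ c'.1 := by
        intro h
        apply hcc
        rw [Subtype.ext h]
      have : {d : E V → ℝ | f (some c) d = f (some c') d}
          = {d : E V → ℝ | (DL a c.1 + DL b c.1 - DL a c'.1 - DL b c'.1) d = 0} := by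
        ext d
        simp only [f, Set.mem_ofPred_eq, LinearMap.sub_apply, LinearMap.add_apply, DL_apply]
        constructor <;> intro h <;> linarith
      rw [this]
      refine volume_level_set _ ⟨upd 0 a c.1 1, ?_⟩ 0
      simp only [LinearMap.sub_apply, LinearMap.add_apply, DL_apply]
      rw [D_test_self c.2.1.symm, D_test c.2.1.symm, D_test c.2.1.symm, D_test c.2.1.symm]
      · norm_num
      · rw [Ne, Sym2.eq_iff]
        rintro (⟨h, _⟩ | ⟨_, h⟩)
        · exact hab h.symm
        · exact c'.2.1 h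
      · rw [Ne, Sym2.eq_iff]
        rintro (⟨_, h⟩ | ⟨_, h⟩)
        · exact hne h.symm
        · exact c'.2.1 h
      · rw [Ne, Sym2.eq_iff]
        rintro (⟨h, _⟩ | ⟨_, h⟩)
        · exact hab h.symm
        · exact c.2.1 h

lemma lo_decomp {a b : V} (hab : a ≠ b) (h3 : ∃ c, c ≠ a ∧ c ≠ b) (ψ : ℝ → ENNReal) :
    ∫⁻ d in Cyl a b, ψ (lo a b d) =
      ∑ c : {c : V // c ≠ a ∧ c ≠ b}, ((∫⁻ d in Lo a b c, ψ (D d a c - D d b c)) +
        (∫⁻ d in Lo b a c, ψ (D d b c - D d a c))) := by
  classical
  let f : {c : V // c ≠ a ∧ c ≠ b} × Bool → (E V → ℝ) → ℝ := fun o =>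
    match o with
    | (c, true) => fun d => D d a c - D d b c
    | (c, false) => fun d => D d b c - D d a c
  have hf : ∀ j, Measurable (f j) := by
    rintro ⟨c, (_ | _)⟩
    · exact (measurable_D b c).sub (measurable_D a c)
    · exact (measurable_D a c).sub (measurable_D b c)
  have key := decomp_general (a := a) (b := b) f hf (lo a b) ?_ ?_ ?_ ψ
  · rw [key, Fintype.sum_prod_type]
    refine Finset.sum_congr rfl fun c _ => ?_
    rw [Fintype.sum_bool]
    have : Lo b a c.1 = Piece a b (fun d => D d b c - D d a c) := by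
      ext d
      unfold Lo Piece
      simp only [Set.mem_ofPred_eq]
      rw [D_comm d b a, upd_comm d b a]
    rw [this]
    rfl
  · intro d hd
    obtain ⟨t, ht⟩ := hd.2
    have h1 := (mem_K_iff_lo_hi hab ht t).1 ht
    have h2 : upd d a b (lo a b d) ∈ K V :=
      (mem_K_iff_lo_hi hab ht _).2 ⟨le_rfl, h1.1.trans h1.2⟩
    -- find `c` in the index set attaining the supremum
    have hex : ∃ c, (c ≠ a ∧ c ≠ b) ∧ lo a b d = |D d a c - D d b c| := by
      obtain ⟨c, _, hc⟩ := Finset.exists_mem_eq_sup' (univ_ne a) (G a b d)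
      have hc' : lo a b d = G a b d c := hc
      by_cases h : c = a ∨ c = b
      · obtain ⟨c', hc1⟩ := h3
        refine ⟨c', hc1, ?_⟩
        have e1 : lo a b d = 0 := by rw [hc']; simp [G, h]
        have e2 : G a b d c' ≤ lo a b d := Finset.le_sup' _ (Finset.mem_univ _)
        simp only [G, hc1.1, hc1.2, or_self, if_false] at e2
        have e3 := abs_nonneg (D d a c' - D d b c')
        linarith
      · refine ⟨c, by push Not at h; exact h, ?_⟩
        rw [hc']
        simp [G, h]
    obtain ⟨c, hc, hlo⟩ := hex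
    rcases abs_choice (D d a c - D d b c) with h | h
    · refine ⟨(⟨c, hc⟩, true), ?_⟩
      rw [hlo, h] at h2
      exact h2
    · refine ⟨(⟨c, hc⟩, false), ?_⟩
      rw [hlo, h, neg_sub] at h2
      exact h2
  · rintro ⟨c, (_ | _)⟩ d hd
    · have h1 := hd.2
      have h2 := (mem_K_iff_lo_hi hab h1 _).1 h1
      have h4 : G a b d c ≤ lo a b d := Finset.le_sup' _ (Finset.mem_univ _)
      simp only [G, c.2.1, c.2.2, or_self, if_false] at h4
      refine le_antisymm h2.1 (le_trans ?_ h4)
      have := neg_le_abs (D d a c - D d b c)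
      rw [neg_sub] at this
      exact this
    · have h1 := hd.2
      have h2 := (mem_K_iff_lo_hi hab h1 _).1 h1
      have h4 : G a b d c ≤ lo a b d := Finset.le_sup' _ (Finset.mem_univ _)
      simp only [G, c.2.1, c.2.2, or_self, if_false] at h4
      exact le_antisymm h2.1 (le_trans (le_abs_self _) h4)
  · -- null sets
    have hac : ∀ c : {c : V // c ≠ a ∧ c ≠ b}, D (upd (0 : E V → ℝ) a c.1 1) b c.1 = 0 := by
      intro c
      rw [D_test c.2.1.symm]
      rw [Ne, Sym2.eq_iff]
      rintro (⟨h, _⟩ | ⟨_, h⟩)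
      · exact hab h.symm
      · exact c.2.1 h
    have hbc : ∀ c c' : {c : V // c ≠ a ∧ c ≠ b}, c ≠ c' →
        D (upd (0 : E V → ℝ) a c.1 1) a c'.1 = 0 := by
      intro c c' hcc
      have hne : c.1 ≠ c'.1 := fun h => hcc (Subtype.ext h)
      rw [D_test c.2.1.symm]
      rw [Ne, Sym2.eq_iff]
      rintro (⟨_, h⟩ | ⟨_, h⟩)
      · exact hne h.symm
      · exact c'.2.1 h
    have hbc' : ∀ c c' : {c : V // c ≠ a ∧ c ≠ b},
        D (upd (0 : E V → ℝ) a c.1 1) b c'.1 = 0 := by
      intro c c'
      rw [D_test c.2.1.symm]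
      rw [Ne, Sym2.eq_iff]
      rintro (⟨h, _⟩ | ⟨_, h⟩)
      · exact hab h.symm
      · exact c'.2.1 h
    have haa : ∀ c : {c : V // c ≠ a ∧ c ≠ b}, D (upd (0 : E V → ℝ) a c.1 1) a c.1 = 1 :=
      fun c => D_test_self c.2.1.symm
    -- `ε = ±1`
    have hgen : ∀ (c c' : {c : V // c ≠ a ∧ c ≠ b}) (ε ε' : ℝ), ε ≠ 0 → (c ≠ c' ∨ ε ≠ ε') →
        volume {d : E V → ℝ | ε * (D d a c - D d b c) = ε' * (D d a c' - D d b c')} = 0 := by
      intro c c' ε ε' hε hor
      have : {d : E V → ℝ | ε * (D d a c - D d b c) = ε' * (D d a c' - D d b c')}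
          = {d : E V → ℝ | (ε • (DL a c.1 - DL b c.1) - ε' • (DL a c'.1 - DL b c'.1)) d = 0} := by
        ext d
        simp only [Set.mem_ofPred_eq, LinearMap.sub_apply, LinearMap.smul_apply, DL_apply,
          smul_eq_mul]
        constructor <;> intro h <;> linarith
      rw [this]
      refine volume_level_set _ ⟨upd 0 a c.1 1, ?_⟩ 0
      simp only [LinearMap.sub_apply, LinearMap.smul_apply, DL_apply, smul_eq_mul]
      rw [haa, hac, hbc']
      by_cases hcc : c = c'
      · subst hcc
        have hne : ε ≠ ε' := by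
          rcases hor with h | h
          · exact absurd rfl h
          · exact h
        rw [haa]
        intro h
        apply hne
        linarith
      · rw [hbc c c' hcc]
        intro h
        apply hε
        linarith
    rintro ⟨c, (_ | _)⟩ ⟨c', (_ | _)⟩ hcc
    · have := hgen c c' (-1) (-1) (by norm_num) (Or.inl (fun h => hcc (by rw [h])))
      convert this using 3
      ext d
      simp only [f]
      constructor <;> intro h <;> linarith
    · have := hgen c c' (-1) 1 (by norm_num) (Or.inr (by norm_num))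
      convert this using 3
      ext d
      simp only [f]
      constructor <;> intro h <;> linarith
    · have := hgen c c' 1 (-1) (by norm_num) (Or.inr (by norm_num))
      convert this using 3
      ext d
      simp only [f]
      constructor <;> intro h <;> linarith
    · have := hgen c c' 1 1 (by norm_num) (Or.inl (fun h => hcc (by rw [h])))
      convert this using 3
      ext d
      simp only [f]
      constructor <;> intro h <;> linarith

end

end Pool.Agent.Work.MP_9bb3e3_co
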