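import Pool.Agent.Work.MP_9bb3e3_co.PartTwo
import Mathlib.Data.Sym.Card

/-!
# Induction
-/

namespace Pool.Agent.Work.MP_9bb3e3_co

open MeasureTheory Set

section

variable {V : Type*} [DecidableEq V] [Fintype V]

omit [Fintype V] in
lemma K_subset_pi : K V ⊆ Set.pi univ (fun _ : E V => Icc (0:ℝ) 2) := by
  rintro d hd ⟨e, he⟩ _
  induction e using Sym2.ind with
  | _ u v =>
    have huv : u ≠ v := by simpa using he
    have h2 := hd.1 u v huv
    rw [D_of_ne _ huv] at h2
    exact h2

lemma volume_pi_two : volume (Set.pi univ (fun _ : E V => Icc (0:ℝ) 2))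
    = 2 ^ (Fintype.card V).choose 2 := by
  rw [volume_pi_pi]
  simp only [Real.volume_Icc, Finset.prod_const, Finset.card_univ]
  rw [Sym2.card_subtype_not_diag]
  norm_num

lemma volume_K_ne_top : volume (K V) ≠ ⊤ := by
  refine ne_top_of_le_ne_top ?_ (measure_mono K_subset_pi)
  rw [volume_pi_two]
  exact ENNReal.pow_ne_top (by norm_num)

lemma volume_K_small (h : Fintype.card V ≤ 2) : volume (K V) = 2 ^ (Fintype.card V).choose 2 := by
  rw [← volume_pi_two]
  congr 1
  refine Subset.antisymm K_subset_pi ?_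
  intro d hd
  refine ⟨?_, ?_⟩
  · intro u v huv
    rw [D_of_ne _ huv]
    exact hd _ (mem_univ _)
  · intro u v w huv huw hvw
    exfalso
    have : 2 < Fintype.card V := Fintype.two_lt_card_iff.2 ⟨u, v, w, huv, huw, hvw⟩
    omega

end

/-- Closed form of the sequence of volumes. -/
noncomputable def vol (n : ℕ) : ENNReal := volume (K (Fin n))

lemma vol_rec (n : ℕ) (hn : 1 ≤ n) : 4 * vol (n + 1) ≤ vol (n + 2) + 4 * vol n := by
  have : Nonempty (Fin n) := ⟨⟨0, hn⟩⟩
  have h := recursion (B := Fin n)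
  have e1 : volume (K (Option (Fin n))) = vol (n + 1) :=
    volume_K_congr (finSuccEquiv n).symm
  have e2 : volume (K (Option (Option (Fin n)))) = vol (n + 2) :=
    volume_K_congr ((Equiv.optionCongr (finSuccEquiv n).symm).trans (finSuccEquiv (n + 1)).symm)
  rw [e1, e2] at h
  exact h

theorem two_mul_vol_le (n : ℕ) (hn : 1 ≤ n) : 2 * vol n ≤ vol (n + 1) := by
  induction n, hn using Nat.le_induction with
  | base =>
    unfold vol
    rw [volume_K_small (by simp), volume_K_small (by simp)]
    simp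
  | succ n hn ih =>
    have h := vol_rec n hn
    have hfin : vol (n + 1) ≠ ⊤ := volume_K_ne_top
    have h2 : 4 * vol n ≤ 2 * vol (n + 1) := by
      calc 4 * vol n = 2 * (2 * vol n) := by rw [← mul_assoc]; norm_num
        _ ≤ 2 * vol (n + 1) := by gcongr
    have h3 : 2 * vol (n + 1) + 2 * vol (n + 1) ≤ vol (n + 2) + 2 * vol (n + 1) := by
      calc 2 * vol (n + 1) + 2 * vol (n + 1) = 4 * vol (n + 1) := by
            rw [← add_mul]; norm_num
        _ ≤ vol (n + 2) + 4 * vol n := h
        _ ≤ vol (n + 2) + 2 * vol (n + 1) := by gcongr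
    exact (ENNReal.add_le_add_iff_right (ENNReal.mul_ne_top (by norm_num) hfin)).1 h3

end Pool.Agent.Work.MP_9bb3e3_co
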