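import Mathlib.MeasureTheory.Integral.Marginal
import Mathlib.MeasureTheory.Measure.Lebesgue.Basic
import Mathlib.MeasureTheory.Measure.Lebesgue.EqHaar
import Mathlib.MeasureTheory.Measure.Haar.Unique

/-!
# Fubini with a dummy coordinate, and null hyperplanes
-/

namespace Pool.Agent.Work.MP_9bb3e3_co

open MeasureTheory Set

section

variable {ι : Type*} [Fintype ι] [DecidableEq ι]

/-- Fubini with a dummy coordinate. -/
lemma lintegral_dummy (i : ι) (g : (ι → ℝ) → ENNReal) (hg : Measurable g) :
    ∫⁻ d, g d = ∫⁻ d in {d : ι → ℝ | 0 ≤ d i ∧ d i ≤ 1}, ∫⁻ t : ℝ, g (Function.update d i t) := by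
  classical
  have hG : Measurable (fun d : ι → ℝ => ∫⁻ t : ℝ, g (Function.update d i t)) := by
    have h2 : Measurable (fun p : (ι → ℝ) × ℝ => g (Function.update p.1 i p.2)) := by
      refine hg.comp ?_
      refine measurable_pi_lambda _ fun j => ?_
      by_cases hj : j = i
      · subst hj
        simp only [Function.update_self]
        exact measurable_snd
      · simp only [Function.update_of_ne hj]
        exact (measurable_pi_apply j).comp measurable_fst
    exact h2.lintegral_prod_right'
  have hS : MeasurableSet {d : ι → ℝ | 0 ≤ d i ∧ d i ≤ 1} :=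
    (measurableSet_Icc (a := (0:ℝ)) (b := 1)).preimage (measurable_pi_apply i)
  rw [← lintegral_indicator hS]
  have hI : Measurable (({d : ι → ℝ | 0 ≤ d i ∧ d i ≤ 1}).indicator
      (fun d : ι → ℝ => ∫⁻ t : ℝ, g (Function.update d i t))) := hG.indicator hS
  have e1 := lintegral_eq_lmarginal_univ (μ := fun _ : ι => (volume : Measure ℝ)) (f := g) 0
  have e2 := lintegral_eq_lmarginal_univ (μ := fun _ : ι => (volume : Measure ℝ))
    (f := ({d : ι → ℝ | 0 ≤ d i ∧ d i ≤ 1}).indicator
      (fun d : ι → ℝ => ∫⁻ t : ℝ, g (Function.update d i t))) 0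
  have hins : insert i (Finset.univ.erase i) = (Finset.univ : Finset ι) :=
    Finset.insert_erase (Finset.mem_univ i)
  have hni : i ∉ Finset.univ.erase i := Finset.notMem_erase i _
  rw [← hins, lmarginal_insert' _ hg hni] at e1
  rw [← hins, lmarginal_insert' _ hI hni] at e2
  change ∫⁻ d, g d ∂(Measure.pi fun _ => volume) = _
  rw [e1]
  change _ = ∫⁻ d, _ ∂(Measure.pi fun _ => volume)
  rw [e2]
  congr 1
  funext x
  have : ∀ xi : ℝ, ({d : ι → ℝ | 0 ≤ d i ∧ d i ≤ 1}).indicator
      (fun d : ι → ℝ => ∫⁻ t : ℝ, g (Function.update d i t)) (Function.update x i xi)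
      = (Icc (0:ℝ) 1).indicator (fun _ => ∫⁻ t : ℝ, g (Function.update x i t)) xi := by
    intro xi
    by_cases hxi : xi ∈ Icc (0:ℝ) 1
    · rw [indicator_of_mem hxi, indicator_of_mem]
      · simp only [Function.update_idem]
      · simpa using hxi
    · rw [indicator_of_notMem hxi, indicator_of_notMem]
      simpa using hxi
  simp only [this]
  rw [lintegral_indicator measurableSet_Icc]
  simp

omit [DecidableEq ι] in
/-- Level sets of nonzero linear functionals are null. -/
lemma volume_level_set (L : (ι → ℝ) →ₗ[ℝ] ℝ) (hL : ∃ v, L v ≠ 0) (k : ℝ) :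
    volume {d : ι → ℝ | L d = k} = 0 := by
  classical
  obtain ⟨v, hv⟩ := hL
  have h := Measure.addHaar_affineSubspace (volume : Measure (ι → ℝ))
    ((AffineSubspace.mk' k (⊥ : Submodule ℝ ℝ)).comap L.toAffineMap) (by
      intro htop
      have h1 : ∀ d, d ∈ ((AffineSubspace.mk' k (⊥ : Submodule ℝ ℝ)).comap L.toAffineMap) := by
        intro d
        rw [htop]
        trivial
      have h2 : ∀ d, L d = k := by
        intro d
        have := h1 d
        simpa [AffineSubspace.mem_comap, AffineSubspace.mem_mk', sub_eq_zero] using this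
      have h3 := h2 0
      have h4 := h2 v
      simp at h3
      exact hv (by rw [h4, ← h3]))
  have h5 : {d : ι → ℝ | L d = k}
      = ((AffineSubspace.mk' k (⊥ : Submodule ℝ ℝ)).comap L.toAffineMap : Set (ι → ℝ)) := by
    ext d
    simp [AffineSubspace.mem_mk', sub_eq_zero]
  rw [h5]
  exact h

end

end Pool.Agent.Work.MP_9bb3e3_co
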