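import Pool.Agent.Work.MP_9bb3e3_co.PartOne

/-!
# Adding one vertex
-/

namespace Pool.Agent.Work.MP_9bb3e3_co

open MeasureTheory Set

section

variable {B : Type*} [DecidableEq B]

/-- Pairs of `Option B` are pairs of `B` and pairs `{none, some c}`. -/
def EoptFun : E B ⊕ B → E (Option B)
  | .inl e => ⟨e.1.map some, by
      have h := e.2
      rwa [Sym2.isDiag_map (Option.some_injective B)]⟩
  | .inr c => ⟨s(none, some c), by simp⟩

omit [DecidableEq B] in
lemma EoptFun_bijective : Function.Bijective (EoptFun : E B ⊕ B → E (Option B)) := by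
  constructor
  · rintro (e | c) (e' | c') h
    · have := congrArg Subtype.val h
      simp only [EoptFun] at this
      rw [(Sym2.map.injective (Option.some_injective B)).eq_iff] at this
      rw [Subtype.ext this]
    · exfalso
      have := congrArg Subtype.val h
      simp only [EoptFun] at this
      obtain ⟨e, he⟩ := e
      induction e using Sym2.ind with
      | _ u v => simp at this
    · exfalso
      have := congrArg Subtype.val h
      simp only [EoptFun] at this
      obtain ⟨e, he⟩ := e'
      induction e using Sym2.ind with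
      | _ u v => simp at this
    · have := congrArg Subtype.val h
      simp only [EoptFun] at this
      have h2 : c = c' := by simpa using this
      rw [h2]
  · rintro ⟨e, he⟩
    induction e using Sym2.ind with
    | _ u v =>
      rcases u with _ | u <;> rcases v with _ | v
      · exact absurd rfl he
      · exact ⟨.inr v, rfl⟩
      · exact ⟨.inr u, Subtype.ext Sym2.eq_swap⟩
      · exact ⟨.inl ⟨s(u, v), fun h => he (by
          have : u = v := h
          rw [this]
          rfl)⟩, rfl⟩

/-- The equivalence on pairs. -/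
noncomputable def Eopt : E B ⊕ B ≃ E (Option B) := Equiv.ofBijective EoptFun EoptFun_bijective

/-- Restriction to the pairs of `B`. -/
noncomputable def res (d : E (Option B) → ℝ) : E B → ℝ := fun e => d (EoptFun (.inl e))

/-- Distances from the new vertex. -/
noncomputable def ext' (d : E (Option B) → ℝ) : B → ℝ := fun c => d (EoptFun (.inr c))

lemma D_res (d : E (Option B) → ℝ) (u v : B) : D (res d) u v = D d (some u) (some v) := by
  by_cases h : u = v
  · subst h; simp [D_self]
  · have h' : some u ≠ some v := fun h2 => h (Option.some_injective B h2)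
    rw [D_of_ne _ h, D_of_ne _ h']
    rfl

lemma ext'_apply (d : E (Option B) → ℝ) (c : B) : ext' d c = D d none (some c) := by
  have h : (none : Option B) ≠ some c := by simp
  rw [D_of_ne _ h]
  rfl

/-- The condition for extending the metric `e` by a point at distances `x`. -/
def K2 (B : Type*) [DecidableEq B] : Set ((E B → ℝ) × (B → ℝ)) :=
  {p | p.1 ∈ K B ∧ (∀ c, 0 ≤ p.2 c ∧ p.2 c ≤ 2) ∧
    ∀ c c', c ≠ c' → D p.1 c c' ≤ p.2 c + p.2 c' ∧ p.2 c ≤ p.2 c' + D p.1 c c'}

lemma mem_K_option_iff (d : E (Option B) → ℝ) : d ∈ K (Option B) ↔ (res d, ext' d) ∈ K2 B := by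
  constructor
  · intro h
    refine ⟨⟨?_, ?_⟩, ?_, ?_⟩
    · intro u v huv
      simp only [D_res]
      exact h.1 _ _ (fun h2 => huv (Option.some_injective B h2))
    · intro u v w huv huw hvw
      simp only [D_res]
      exact K.tri h _ _ _
    · intro c
      simp only [ext'_apply]
      exact ⟨K.nonneg h _ _, K.le_two h _ _⟩
    · intro c c' hcc
      simp only [ext'_apply, D_res]
      refine ⟨?_, ?_⟩
      · have := K.tri h (some c) (some c') none
        rw [D_comm d (some c) none, D_comm d (some c') none] at this
        exact this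
      · exact K.tri h none (some c) (some c')
  · rintro ⟨h1, h2, h3⟩
    simp only [ext'_apply, D_res] at h2 h3
    have h1a := fun u v => K.nonneg h1 u v
    have h1b := fun u v => K.le_two h1 u v
    have h1c := fun u v w => K.tri h1 u v w
    simp only [D_res] at h1a h1b h1c
    refine ⟨?_, ?_⟩
    · rintro (_ | u) (_ | v) huv
      · exact absurd rfl huv
      · exact h2 v
      · rw [D_comm]; exact h2 u
      · exact ⟨h1a u v, h1b u v⟩
    · rintro (_ | u) (_ | v) (_ | w) huv huw hvw
      · exact absurd rfl huv
      · exact absurd rfl huv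
      · exact absurd rfl huw
      · -- none, some v, some w
        exact (h3 v w (fun h => hvw (by rw [h]))).2
      · exact absurd rfl hvw
      · -- some u, none, some w
        rw [D_comm d (some u) none, add_comm]
        exact (h3 u w (fun h => huw (by rw [h]))).2
      · -- some u, some v, none
        rw [D_comm d (some u) none, D_comm d (some v) none]
        exact (h3 u v (fun h => huv (by rw [h]))).1
      · exact h1c u v w

omit [DecidableEq B] in
lemma measurable_res [Finite B] : Measurable (res : (E (Option B) → ℝ) → (E B → ℝ)) :=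
  measurable_pi_lambda _ fun _ => measurable_pi_apply _

lemma measurableSet_K2 [Finite B] : MeasurableSet (K2 B) := by
  have e : K2 B = (Prod.fst ⁻¹' K B) ∩ ((⋂ c : B, {p : (E B → ℝ) × (B → ℝ) | 0 ≤ p.2 c ∧ p.2 c ≤ 2})
      ∩ (⋂ c : B, ⋂ c' : B, {p : (E B → ℝ) × (B → ℝ) | c ≠ c' →
        D p.1 c c' ≤ p.2 c + p.2 c' ∧ p.2 c ≤ p.2 c' + D p.1 c c'})) := by
    ext p
    simp only [K2, Set.mem_ofPred_eq, mem_inter_iff, mem_preimage, mem_iInter]
  rw [e]
  have hx : ∀ c : B, Measurable (fun p : (E B → ℝ) × (B → ℝ) => p.2 c) := fun c =>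
    (measurable_pi_apply c).comp measurable_snd
  have hD : ∀ c c' : B, Measurable (fun p : (E B → ℝ) × (B → ℝ) => D p.1 c c') := fun c c' =>
    (measurable_D c c').comp measurable_fst
  refine (measurableSet_K.preimage measurable_fst).inter (MeasurableSet.inter ?_ ?_)
  · exact MeasurableSet.iInter fun c => (measurableSet_le measurable_const (hx c)).inter
      (measurableSet_le (hx c) measurable_const)
  · refine MeasurableSet.iInter fun c => MeasurableSet.iInter fun c' => ?_
    by_cases h : c = c'
    · have : {p : (E B → ℝ) × (B → ℝ) | c ≠ c' →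
        D p.1 c c' ≤ p.2 c + p.2 c' ∧ p.2 c ≤ p.2 c' + D p.1 c c'} = univ := by
        ext p
        simp [h]
      rw [this]
      exact MeasurableSet.univ
    · have : {p : (E B → ℝ) × (B → ℝ) | c ≠ c' →
        D p.1 c c' ≤ p.2 c + p.2 c' ∧ p.2 c ≤ p.2 c' + D p.1 c c'}
          = {p : (E B → ℝ) × (B → ℝ) |
        D p.1 c c' ≤ p.2 c + p.2 c' ∧ p.2 c ≤ p.2 c' + D p.1 c c'} := by
        ext p
        simp [h]
      rw [this]
      exact (measurableSet_le (hD c c') ((hx c).add (hx c'))).inter
        (measurableSet_le (hx c) ((hx c').add (hD c c')))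

variable [Fintype B]

lemma split_measurePreserving :
    MeasurePreserving (fun d : E (Option B) → ℝ => (res d, ext' d)) volume volume := by
  have h1 := measurePreserving_comp_equiv (Eopt (B := B))
  have h2 := volume_measurePreserving_sumPiEquivProdPi (fun _ : E B ⊕ B => ℝ)
  exact h2.comp h1

/-- The fibre volume. -/
noncomputable def fib (e : E B → ℝ) : ENNReal := volume {x : B → ℝ | (e, x) ∈ K2 B}

lemma measurable_fib : Measurable (fib : (E B → ℝ) → ENNReal) :=
  measurable_measure_prodMk_left measurableSet_K2

lemma fib_eq_zero {e : E B → ℝ} (he : e ∉ K B) : fib e = 0 := by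
  have : {x : B → ℝ | (e, x) ∈ K2 B} = ∅ := by
    ext x
    simp only [Set.mem_ofPred_eq, mem_empty_iff_false, iff_false]
    intro h
    exact he h.1
  rw [fib, this, measure_empty]

lemma volume_K_option : volume (K (Option B)) = ∫⁻ e, fib (B := B) e := by
  have h : K (Option B) = (fun d : E (Option B) → ℝ => (res d, ext' d)) ⁻¹' (K2 B) := by
    ext d
    exact mem_K_option_iff d
  rw [h, split_measurePreserving.measure_preimage measurableSet_K2.nullMeasurableSet]
  exact Measure.prod_apply measurableSet_K2

omit [DecidableEq B] in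
lemma lintegral_option_none (A : Set (B → ℝ)) (hA : MeasurableSet A) :
    volume {y : Option B → ℝ | (0 ≤ y none ∧ y none ≤ 1) ∧ (fun c => y (some c)) ∈ A}
      = volume A := by
  have h0 : MeasurePreserving (MeasurableEquiv.piOptionEquivProd (fun _ : Option B => ℝ)).symm
      ((volume : Measure (B → ℝ)).prod (volume : Measure ℝ)) (volume : Measure (Option B → ℝ)) :=
    ⟨(MeasurableEquiv.piOptionEquivProd (fun _ : Option B => ℝ)).symm.measurable,
      Measure.pi_map_piOptionEquivProd (fun _ : Option B => (volume : Measure ℝ))⟩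
  have h1 := h0.symm
  have h2 : {y : Option B → ℝ | (0 ≤ y none ∧ y none ≤ 1) ∧ (fun c => y (some c)) ∈ A}
      = (MeasurableEquiv.piOptionEquivProd (fun _ : Option B => ℝ)).symm.symm ⁻¹'
        (A ×ˢ Icc (0:ℝ) 1) := by
    ext y
    constructor
    · rintro ⟨h3, h4⟩
      exact ⟨h4, h3⟩
    · rintro ⟨h3, h4⟩
      exact ⟨h4, h3⟩
  rw [h2, h1.measure_preimage (hA.prod measurableSet_Icc).nullMeasurableSet,
    Measure.prod_prod]
  simp

end

end Pool.Agent.Work.MP_9bb3e3_co
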