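import Pool.Agent.Work.MP_9bb3e3_co.Maps

/-!
# The endpoints of the fibres
-/

namespace Pool.Agent.Work.MP_9bb3e3_co

open MeasureTheory Set

section

variable {V : Type*} [DecidableEq V] [Fintype V]

/-- Upper bounds on the coordinate `{a, b}`. -/
noncomputable def F (a b : V) (d : E V → ℝ) (c : V) : ℝ :=
  if c = a ∨ c = b then 2 else D d a c + D d b c

/-- Lower bounds on the coordinate `{a, b}`. -/
noncomputable def G (a b : V) (d : E V → ℝ) (c : V) : ℝ :=
  if c = a ∨ c = b then 0 else |D d a c - D d b c|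

omit [DecidableEq V] in
lemma univ_ne (a : V) : (Finset.univ : Finset V).Nonempty := ⟨a, Finset.mem_univ a⟩

/-- Upper end of the fibre. -/
noncomputable def hi (a b : V) (d : E V → ℝ) : ℝ :=
  (Finset.univ : Finset V).inf' (univ_ne a) (F a b d)

/-- Lower end of the fibre. -/
noncomputable def lo (a b : V) (d : E V → ℝ) : ℝ :=
  (Finset.univ : Finset V).sup' (univ_ne a) (G a b d)

lemma hi_le_two (a b : V) (d : E V → ℝ) : hi a b d ≤ 2 := by
  have h := Finset.inf'_le (F a b d) (Finset.mem_univ a)
  simp only [F, true_or, if_true] at h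
  exact h

lemma lo_nonneg (a b : V) (d : E V → ℝ) : 0 ≤ lo a b d := by
  have h := Finset.le_sup' (G a b d) (Finset.mem_univ a)
  simp only [G, true_or, if_true] at h
  exact h

omit [Fintype V] in
lemma measurable_F (a b : V) (c : V) : Measurable (fun d => F a b d c) := by
  unfold F
  by_cases h : c = a ∨ c = b
  · simp [h]
  · simp only [h, if_false]
    exact (measurable_D a c).add (measurable_D b c)

omit [Fintype V] in
lemma measurable_G (a b : V) (c : V) : Measurable (fun d => G a b d c) := by
  unfold G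
  by_cases h : c = a ∨ c = b
  · simp [h]
  · simp only [h, if_false]
    exact ((measurable_D a c).sub (measurable_D b c)).norm

lemma measurable_hi (a b : V) : Measurable (hi a b) := by
  refine measurable_of_Ioi fun x => ?_
  have : hi a b ⁻¹' Ioi x = ⋂ c : V, {d | x < F a b d c} := by
    ext d
    simp [hi, Finset.lt_inf'_iff]
  rw [this]
  exact MeasurableSet.iInter fun c => measurableSet_lt measurable_const (measurable_F a b c)

lemma measurable_lo (a b : V) : Measurable (lo a b) := by
  refine measurable_of_Iio fun x => ?_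
  have : lo a b ⁻¹' Iio x = ⋂ c : V, {d | G a b d c < x} := by
    ext d
    simp [lo, Finset.sup'_lt_iff]
  rw [this]
  exact MeasurableSet.iInter fun c => measurableSet_lt (measurable_G a b c) measurable_const

lemma mem_K_iff_lo_hi {a b : V} (hab : a ≠ b) {d : E V → ℝ} {t₀ : ℝ}
    (h0 : upd d a b t₀ ∈ K V) (t : ℝ) :
    upd d a b t ∈ K V ↔ lo a b d ≤ t ∧ t ≤ hi a b d := by
  rw [mem_K_upd_iff hab h0]
  unfold lo hi
  rw [Finset.sup'_le_iff, Finset.le_inf'_iff]
  constructor
  · rintro ⟨⟨h1, h2⟩, h3⟩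
    refine ⟨fun c _ => ?_, fun c _ => ?_⟩
    · unfold G
      split_ifs with h
      · exact h1
      · push Not at h
        have := h3 c h.1 h.2
        rw [abs_le]
        constructor <;> linarith [this.2.1, this.2.2]
    · unfold F
      split_ifs with h
      · exact h2
      · push Not at h
        exact (h3 c h.1 h.2).1
  · rintro ⟨h1, h2⟩
    refine ⟨⟨?_, ?_⟩, ?_⟩
    · have := h1 a (Finset.mem_univ a)
      simpa [G] using this
    · have := h2 a (Finset.mem_univ a)
      simpa [F] using this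
    · intro c hca hcb
      have e1 := h1 c (Finset.mem_univ c)
      have e2 := h2 c (Finset.mem_univ c)
      simp only [G, hca, hcb, or_self, if_false, abs_le] at e1
      simp only [F, hca, hcb, or_self, if_false] at e2
      exact ⟨e2, e1.2, by linarith [e1.1]⟩

/-- The cylinder over the projection of `K`. -/
def Cyl (a b : V) : Set (E V → ℝ) :=
  {d | (0 ≤ D d a b ∧ D d a b ≤ 1) ∧ ∃ t, upd d a b t ∈ K V}

/-- The generic piece: the set of `d` such that `upd d a b (f d) ∈ K`. -/
def Piece (a b : V) (f : (E V → ℝ) → ℝ) : Set (E V → ℝ) :=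
  {d | (0 ≤ D d a b ∧ D d a b ≤ 1) ∧ upd d a b (f d) ∈ K V}

lemma measurableSet_Piece (a b : V) {f : (E V → ℝ) → ℝ} (hf : Measurable f) :
    MeasurableSet (Piece a b f) := by
  unfold Piece
  have h1 : MeasurableSet {d : E V → ℝ | 0 ≤ D d a b} :=
    measurableSet_le measurable_const (measurable_D a b)
  have h2 : MeasurableSet {d : E V → ℝ | D d a b ≤ 1} :=
    measurableSet_le (measurable_D a b) measurable_const
  have h3 : MeasurableSet {d : E V → ℝ | upd d a b (f d) ∈ K V} :=
    measurableSet_K.preimage (measurable_upd a b measurable_id hf)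
  exact (h1.inter h2).inter h3

lemma Cyl_eq_Piece_hi {a b : V} (hab : a ≠ b) : Cyl a b = Piece a b (hi a b) := by
  ext d
  unfold Cyl Piece
  constructor
  · rintro ⟨h1, t, ht⟩
    refine ⟨h1, ?_⟩
    have h2 := (mem_K_iff_lo_hi hab ht t).1 ht
    rw [mem_K_iff_lo_hi hab ht]
    exact ⟨h2.1.trans h2.2, le_rfl⟩
  · rintro ⟨h1, h2⟩
    exact ⟨h1, _, h2⟩

lemma measurableSet_Cyl {a b : V} (hab : a ≠ b) : MeasurableSet (Cyl a b) := by
  rw [Cyl_eq_Piece_hi hab]
  exact measurableSet_Piece a b (measurable_hi a b)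

lemma lo_le_hi {a b : V} (hab : a ≠ b) {d : E V → ℝ} (hd : d ∈ Cyl a b) :
    lo a b d ≤ hi a b d := by
  obtain ⟨_, t, ht⟩ := hd
  have h2 := (mem_K_iff_lo_hi hab ht t).1 ht
  exact h2.1.trans h2.2

/-- Volume of `K` by Fubini along the coordinate `{a, b}`. -/
lemma volume_K_eq {a b : V} (hab : a ≠ b) :
    volume (K V) = ∫⁻ d in Cyl a b, ENNReal.ofReal (hi a b d - lo a b d) := by
  classical
  have hd : ¬ (s(a, b)).IsDiag := by simpa using hab
  have hK : MeasurableSet (K V) := measurableSet_K
  have h1 := lintegral_dummy (⟨s(a, b), hd⟩ : E V) ((K V).indicator 1) (measurable_one.indicator hK)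
  rw [lintegral_indicator_one hK] at h1
  rw [h1]
  have hS : MeasurableSet {d : E V → ℝ | 0 ≤ d ⟨s(a, b), hd⟩ ∧ d ⟨s(a, b), hd⟩ ≤ 1} :=
    (measurableSet_Icc (a := (0:ℝ)) (b := 1)).preimage (measurable_pi_apply _)
  rw [← lintegral_indicator hS, ← lintegral_indicator (measurableSet_Cyl hab)]
  congr 1
  funext d
  have hDab : D d a b = d ⟨s(a, b), hd⟩ := D_of_ne d hab
  by_cases hd1 : d ∈ {d : E V → ℝ | 0 ≤ d ⟨s(a, b), hd⟩ ∧ d ⟨s(a, b), hd⟩ ≤ 1}
  · rw [indicator_of_mem hd1]
    by_cases hex : ∃ t, upd d a b t ∈ K V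
    · have hdC : d ∈ Cyl a b := ⟨by rw [hDab]; exact hd1, hex⟩
      rw [indicator_of_mem hdC]
      obtain ⟨t₀, ht₀⟩ := hex
      have h2 : ∀ t : ℝ, (K V).indicator (1 : (E V → ℝ) → ENNReal)
          (Function.update d ⟨s(a, b), hd⟩ t)
          = (Icc (lo a b d) (hi a b d)).indicator (1 : ℝ → ENNReal) t := by
        intro t
        rw [← upd_eq_update]
        by_cases ht : upd d a b t ∈ K V
        · have ht' : t ∈ Icc (lo a b d) (hi a b d) := (mem_K_iff_lo_hi hab ht₀ t).1 ht
          rw [indicator_of_mem ht, indicator_of_mem ht']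
          rfl
        · rw [indicator_of_notMem ht, indicator_of_notMem]
          intro h3
          exact ht ((mem_K_iff_lo_hi hab ht₀ t).2 h3)
      simp only [h2]
      rw [lintegral_indicator_one measurableSet_Icc, Real.volume_Icc]
    · have hdC : d ∉ Cyl a b := fun h => hex h.2
      rw [indicator_of_notMem hdC]
      have h2 : ∀ t : ℝ, (K V).indicator (1 : (E V → ℝ) → ENNReal)
          (Function.update d ⟨s(a, b), hd⟩ t) = 0 := by
        intro t
        rw [← upd_eq_update, indicator_of_notMem]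
        intro h3
        exact hex ⟨t, h3⟩
      simp [h2]
  · rw [indicator_of_notMem hd1, indicator_of_notMem]
    intro h
    apply hd1
    have := h.1
    rw [hDab] at this
    exact this

end

end Pool.Agent.Work.MP_9bb3e3_co
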