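import Pool.Agent.Work.MP_9bb3e3_co.Basic

/-!
# Measure preserving maps: relabelling and the swap-and-shear map
-/

namespace Pool.Agent.Work.MP_9bb3e3_co

open MeasureTheory Set

lemma measurePreserving_comp_equiv {ι ι' : Type*} [Fintype ι] [Fintype ι'] (e : ι' ≃ ι) :
    MeasurePreserving (fun d : ι → ℝ => (fun i' => d (e i') : ι' → ℝ)) volume volume := by
  have h := volume_measurePreserving_piCongrLeft (fun _ : ι' => ℝ) e.symm
  have h2 : (MeasurableEquiv.piCongrLeft (fun _ : ι' => ℝ) e.symm : (ι → ℝ) → (ι' → ℝ))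
      = (fun d : ι → ℝ => (fun i' => d (e i') : ι' → ℝ)) := by
    funext d i'
    have h3 : (Equiv.piCongrLeft (fun _ : ι' => ℝ) e.symm) d (e.symm (e i')) = d (e i') :=
      Equiv.piCongrLeft_apply_apply (fun _ : ι' => ℝ) e.symm d (e i')
    rw [e.symm_apply_apply] at h3
    exact h3
  rw [← h2]
  exact h

section

variable {V W : Type*} [DecidableEq V] [DecidableEq W]

/-- The map on pairs induced by a relabelling. -/
def Emap (σ : V ≃ W) : E V ≃ E W where
  toFun e := ⟨e.1.map σ, by
    have h := e.2
    rwa [Sym2.isDiag_map σ.injective]⟩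
  invFun e := ⟨e.1.map σ.symm, by
    have h := e.2
    rwa [Sym2.isDiag_map σ.symm.injective]⟩
  left_inv e := by
    ext1
    simp [Sym2.map_map]
  right_inv e := by
    ext1
    simp [Sym2.map_map]

/-- Relabel a vector of coordinates. -/
def relabel (σ : V ≃ W) (d : E W → ℝ) : E V → ℝ := fun e => d (Emap σ e)

lemma D_relabel (σ : V ≃ W) (d : E W → ℝ) (u v : V) :
    D (relabel σ d) u v = D d (σ u) (σ v) := by
  by_cases h : u = v
  · subst h; simp [D_self]
  · have h' : σ u ≠ σ v := fun h2 => h (σ.injective h2)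
    rw [D_of_ne _ h, D_of_ne _ h']
    rfl

lemma relabel_mem_K (σ : V ≃ W) (d : E W → ℝ) : relabel σ d ∈ K V ↔ d ∈ K W := by
  constructor
  · intro h
    refine ⟨?_, ?_⟩
    · intro u v huv
      have := h.1 (σ.symm u) (σ.symm v) (fun h2 => huv (σ.symm.injective h2))
      rw [D_relabel] at this
      simpa using this
    · intro u v w huv huw hvw
      have := h.2 (σ.symm u) (σ.symm v) (σ.symm w) (fun h2 => huv (σ.symm.injective h2))
        (fun h2 => huw (σ.symm.injective h2)) (fun h2 => hvw (σ.symm.injective h2))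
      rw [D_relabel, D_relabel, D_relabel] at this
      simpa using this
  · intro h
    refine ⟨?_, ?_⟩
    · intro u v huv
      rw [D_relabel]
      exact h.1 _ _ (fun h2 => huv (σ.injective h2))
    · intro u v w huv huw hvw
      rw [D_relabel, D_relabel, D_relabel]
      exact h.2 _ _ _ (fun h2 => huv (σ.injective h2)) (fun h2 => huw (σ.injective h2))
        (fun h2 => hvw (σ.injective h2))

lemma relabel_upd (σ : V ≃ W) (d : E W → ℝ) (a b : V) (t : ℝ) :
    upd (relabel σ d) a b t = relabel σ (upd d (σ a) (σ b) t) := by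
  funext e
  obtain ⟨e, he⟩ := e
  unfold upd relabel Emap
  simp only [Equiv.coe_fn_mk]
  have h : (Sym2.map σ e = s(σ a, σ b)) ↔ e = s(a, b) := by
    rw [← Sym2.map_mk σ]
    exact (Sym2.map.injective σ.injective).eq_iff
  by_cases h1 : e = s(a, b)
  · simp [h1]
  · rw [if_neg h1, if_neg (fun h2 => h1 (h.1 h2))]

lemma relabel_measurePreserving [Fintype V] [Fintype W] (σ : V ≃ W) :
    MeasurePreserving (relabel σ : (E W → ℝ) → (E V → ℝ)) volume volume :=
  measurePreserving_comp_equiv (Emap σ)

lemma volume_K_congr [Fintype V] [Fintype W] (σ : V ≃ W) : volume (K V) = volume (K W) := by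
  have h := (relabel_measurePreserving σ).measure_preimage (measurableSet_K (V := V)).nullMeasurableSet
  rw [← h]
  congr 1
  ext d
  exact relabel_mem_K σ d

/-- The swap-and-shear map: the new coordinate `ab` is `d_ac - d_bc`, the new coordinate `ac` is
the old `d_ab`. -/
noncomputable def Phi (a b c : V) (d : E V → ℝ) : E V → ℝ :=
  fun e => if e.1 = s(a, b) then D d a c - D d b c else if e.1 = s(a, c) then D d a b else d e

lemma Phi_measurePreserving [Fintype V] {a b c : V} (hab : a ≠ b) (hac : a ≠ c) (hbc : b ≠ c) :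
    MeasurePreserving (Phi a b c : (E V → ℝ) → (E V → ℝ)) volume volume := by
  classical
  let iab : E V := ⟨s(a, b), by simpa using hab⟩
  let iac : E V := ⟨s(a, c), by simpa using hac⟩
  let ibc : E V := ⟨s(b, c), by simpa using hbc⟩
  have h1 : iab ≠ iac := by
    intro h
    have := congrArg Subtype.val h
    simp only [iab, iac, Sym2.eq_iff] at this
    rcases this with ⟨_, h⟩ | ⟨h, _⟩
    · exact hbc h
    · exact hac h
  have h2 : iab ≠ ibc := by
    intro h
    have := congrArg Subtype.val h
    simp only [iab, ibc, Sym2.eq_iff] at this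
    rcases this with ⟨h, _⟩ | ⟨h, _⟩
    · exact hab h
    · exact hac h
  have h3 : iac ≠ ibc := by
    intro h
    have := congrArg Subtype.val h
    simp only [iac, ibc, Sym2.eq_iff] at this
    rcases this with ⟨h, _⟩ | ⟨h, _⟩
    · exact hab h
    · exact hac h
  have hs := measurePreserving_comp_equiv (Equiv.swap iab iac)
  have ht := Real.volume_preserving_transvectionStruct
    (⟨iab, ibc, h2, -1⟩ : Matrix.TransvectionStruct (E V) ℝ)
  have hc := ht.comp hs
  suffices key : (Phi a b c : (E V → ℝ) → (E V → ℝ)) = _ by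
    rw [key]
    exact hc
  funext d e
  simp only [Function.comp_apply, Matrix.TransvectionStruct.toMatrix_mk, Matrix.toLin'_apply,
    Matrix.transvection, Matrix.add_mulVec, Matrix.one_mulVec, Pi.add_apply,
    Matrix.single_mulVec]
  have hsbc : Equiv.swap iab iac ibc = ibc := Equiv.swap_apply_of_ne_of_ne h2.symm h3.symm
  unfold Phi
  by_cases he : e = iab
  · subst he
    simp only [iab, if_true]
    rw [D_of_ne _ hac, D_of_ne _ hbc]
    simp only [iab, iac, ibc] at hsbc ⊢
    rw [hsbc]
    simp [Function.update_self]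
    ring
  · have he1 : ¬ e.1 = s(a, b) := fun h => he (Subtype.ext h)
    rw [if_neg he1]
    simp only [Function.update_of_ne he, Pi.zero_apply, add_zero]
    by_cases he2 : e = iac
    · subst he2
      simp only [iac, if_true]
      rw [D_of_ne _ hab]
      simp only [iab, iac] at *
      rw [Equiv.swap_apply_right]
    · have he3 : ¬ e.1 = s(a, c) := fun h => he2 (Subtype.ext h)
      rw [if_neg he3, Equiv.swap_apply_of_ne_of_ne he he2]

end

end Pool.Agent.Work.MP_9bb3e3_co
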