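import Pool.Agent.Work.MP_9bb3e3_co.Decomp

/-!
# Part I: the volume of `K` equals the volume of the cylinder over its projection
-/

namespace Pool.Agent.Work.MP_9bb3e3_co

open MeasureTheory Set

section

variable {V : Type*} [DecidableEq V] [Fintype V]

lemma Lo_to_Up_step1 {a b c : V} (hab : a ≠ b) (hac : a ≠ c) (hbc : b ≠ c) (ψ : ℝ → ENNReal)
    (hψ : Measurable ψ) :
    ∫⁻ d in Lo a b c, ψ (D d a c - D d b c) = ∫⁻ d in Up a c b, ψ (D d a b) := by
  have hne1 : s(a, c) ≠ s(a, b) := by
    rw [Ne, Sym2.eq_iff]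
    rintro (⟨_, h⟩ | ⟨h, _⟩)
    · exact hbc h.symm
    · exact hab h
  have hne2 : s(c, b) ≠ s(a, b) := by
    rw [Ne, Sym2.eq_iff]
    rintro (⟨h, _⟩ | ⟨h, _⟩)
    · exact hac h.symm
    · exact hbc h.symm
  have hne3 : s(c, b) ≠ s(a, c) := by
    rw [Ne, Sym2.eq_iff]
    rintro (⟨h, _⟩ | ⟨_, h⟩)
    · exact hac h.symm
    · exact hab h.symm
  have hPab : ∀ d : E V → ℝ, D (Phi a b c d) a b = D d a c - D d b c := by
    intro d
    rw [D_of_ne _ hab]
    simp [Phi]
  have hPac : ∀ d : E V → ℝ, D (Phi a b c d) a c = D d a b := by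
    intro d
    rw [D_of_ne _ hac]
    simp only [Phi, hne1, if_true, if_false]
  have hPcb : ∀ d : E V → ℝ, D (Phi a b c d) c b = D d c b := by
    intro d
    rw [D_of_ne _ hbc.symm, D_of_ne _ hbc.symm]
    simp only [Phi, hne2, hne3, if_false]
  have hmp := Phi_measurePreserving hab hac hbc
  have hUp : MeasurableSet (Up a c b) :=
    measurableSet_Piece a c ((measurable_D a b).add (measurable_D c b))
  have hpre : (Phi a b c : (E V → ℝ) → (E V → ℝ)) ⁻¹' (Up a c b) = Lo a b c := by
    ext d
    have hu : upd (Phi a b c d) a c (D (Phi a b c d) a b + D (Phi a b c d) c b)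
        = upd d a b (D d a c - D d b c) := by
      rw [hPab, hPcb]
      funext e
      unfold upd
      by_cases h1 : e.1 = s(a, c)
      · have h2 : e.1 ≠ s(a, b) := by rw [h1]; exact hne1
        rw [if_pos h1, if_neg h2, D_comm d c b]
        have : e = ⟨s(a, c), by simpa using hac⟩ := Subtype.ext h1
        rw [this, D_of_ne _ hac]
        ring
      · rw [if_neg h1]
        by_cases h2 : e.1 = s(a, b)
        · simp [Phi, h2]
        · simp [Phi, h1, h2]
    unfold Up Lo Piece
    simp only [mem_preimage, Set.mem_ofPred_eq]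
    rw [hu, hPac]
  have key := hmp.setLIntegral_comp_preimage hUp (hψ.comp (measurable_D a b))
  simp only [Function.comp_apply, hPab] at key
  rw [hpre] at key
  exact key

lemma Lo_to_Up_step2 {a b c : V} (hab : a ≠ b) (hac : a ≠ c) (ψ : ℝ → ENNReal)
    (hψ : Measurable ψ) :
    ∫⁻ d in Up a c b, ψ (D d a b) = ∫⁻ d in Up a b c, ψ (D d a c) := by
  have hmp := relabel_measurePreserving (Equiv.swap b c)
  have hUp : MeasurableSet (Up a c b) :=
    measurableSet_Piece a c ((measurable_D a b).add (measurable_D c b))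
  have hsa : Equiv.swap b c a = a := Equiv.swap_apply_of_ne_of_ne hab hac
  have hpre : (relabel (Equiv.swap b c) : (E V → ℝ) → (E V → ℝ)) ⁻¹' (Up a c b) = Up a b c := by
    ext d
    unfold Up Piece
    simp only [mem_preimage, Set.mem_ofPred_eq]
    rw [relabel_upd, relabel_mem_K, D_relabel, D_relabel, D_relabel, hsa,
      Equiv.swap_apply_left, Equiv.swap_apply_right]
  have key := hmp.setLIntegral_comp_preimage hUp (hψ.comp (measurable_D a b))
  simp only [Function.comp_apply, D_relabel, hsa, Equiv.swap_apply_left] at key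
  rw [hpre] at key
  exact key.symm

lemma Lo_to_Up {a b c : V} (hab : a ≠ b) (hac : a ≠ c) (hbc : b ≠ c) (ψ : ℝ → ENNReal)
    (hψ : Measurable ψ) :
    ∫⁻ d in Lo a b c, ψ (D d a c - D d b c) = ∫⁻ d in Up a b c, ψ (D d a c) := by
  rw [Lo_to_Up_step1 hab hac hbc ψ hψ, Lo_to_Up_step2 hab hac ψ hψ]

omit [Fintype V] in
lemma Up_comm {a b c : V} : Up b a c = Up a b c := by
  ext d
  unfold Up Piece
  simp only [Set.mem_ofPred_eq]
  rw [D_comm d b a, upd_comm d b a, add_comm]

lemma lo_decomp' {a b : V} (hab : a ≠ b) (h3 : ∃ c, c ≠ a ∧ c ≠ b) (ψ : ℝ → ENNReal)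
    (hψ : Measurable ψ) :
    ∫⁻ d in Cyl a b, ψ (lo a b d) =
      ∑ c : {c : V // c ≠ a ∧ c ≠ b}, ∫⁻ d in Up a b c, (ψ (D d a c) + ψ (D d b c)) := by
  rw [lo_decomp hab h3]
  refine Finset.sum_congr rfl fun c _ => ?_
  have key := lintegral_add_left (μ := volume.restrict (Up a b c.1))
    (hψ.comp (measurable_D a c.1)) (fun d => ψ (D d b c.1))
  simp only [Function.comp_apply] at key
  rw [Lo_to_Up hab c.2.1.symm c.2.2.symm ψ hψ, Lo_to_Up hab.symm c.2.2.symm c.2.1.symm ψ hψ,
    Up_comm (a := a) (b := b), key]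

/-- The cylinder has finite volume. -/
lemma volume_Cyl_lt_top {a b : V} (hab : a ≠ b) : volume (Cyl a b) < ⊤ := by
  have h : Cyl a b ⊆ Set.pi univ (fun _ : E V => Icc (0:ℝ) 2) := by
    intro d hd e _
    obtain ⟨⟨h0, h1⟩, t, ht⟩ := hd
    by_cases he : e.1 = s(a, b)
    · have : e = ⟨s(a, b), by simpa using hab⟩ := Subtype.ext he
      rw [D_of_ne _ hab] at h0 h1
      rw [this]
      exact ⟨h0, by linarith⟩
    · obtain ⟨e, hed⟩ := e
      induction e using Sym2.ind with
      | _ u v =>
        have huv : u ≠ v := by simpa using hed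
        have h2 := ht.1 u v huv
        rw [D_upd_other _ _ _ _ he, D_of_ne _ huv] at h2
        exact h2
  refine lt_of_le_of_lt (measure_mono h) ?_
  rw [volume_pi_pi]
  simp only [Real.volume_Icc]
  exact ENNReal.prod_lt_top (fun _ _ => ENNReal.ofReal_lt_top)

omit [Fintype V] in
lemma Piece_subset_Cyl {a b : V} (f : (E V → ℝ) → ℝ) : Piece a b f ⊆ Cyl a b :=
  fun _ hd => ⟨hd.1, _, hd.2⟩

/-- **Part I.** -/
theorem volume_K_eq_volume_Cyl {a b : V} (hab : a ≠ b) (h3 : ∃ c, c ≠ a ∧ c ≠ b) :
    volume (K V) = volume (Cyl a b) := by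
  classical
  set T := volume (Top a b) with hT
  set U := ∑ c : {c : V // c ≠ a ∧ c ≠ b}, volume (Up a b c) with hU
  set S := ∑ c : {c : V // c ≠ a ∧ c ≠ b},
    ∫⁻ d in Up a b c, (ENNReal.ofReal (D d a c) + ENNReal.ofReal (D d b c)) with hS
  have e1 : volume (Cyl a b) = T + U := by
    have := hi_decomp hab (fun _ => 1)
    simpa using this
  have e2 : volume (Cyl a b) = 2 * U := by
    have := lo_decomp' hab h3 (fun _ => 1) measurable_const
    simp only [lintegral_const, Measure.restrict_apply MeasurableSet.univ, univ_inter,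
      one_mul] at this
    rw [this, hU, Finset.mul_sum]
    refine Finset.sum_congr rfl fun c _ => ?_
    norm_num
  have e3 : ∫⁻ d in Cyl a b, ENNReal.ofReal (hi a b d) = 2 * T + S := by
    rw [hi_decomp hab ENNReal.ofReal]
    have : ENNReal.ofReal 2 = 2 := by norm_num
    rw [this, hS]
    congr 1
    refine Finset.sum_congr rfl fun c _ => ?_
    have hm : MeasurableSet (Up a b c.1) :=
      measurableSet_Piece a b ((measurable_D a c.1).add (measurable_D b c.1))
    refine setLIntegral_congr_fun hm ?_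
    intro d hd
    have h1 := K.nonneg hd.2 a c.1
    have h2 := K.nonneg hd.2 b c.1
    rw [D_upd_left _ _ _ _ c.2.1 c.2.2] at h1
    rw [D_upd_right _ _ _ _ c.2.1 c.2.2] at h2
    exact ENNReal.ofReal_add h1 h2
  have e4 : ∫⁻ d in Cyl a b, ENNReal.ofReal (lo a b d) = S :=
    lo_decomp' hab h3 ENNReal.ofReal ENNReal.measurable_ofReal
  have e5 : volume (K V) + S = 2 * T + S := by
    have key := lintegral_add_right (μ := volume.restrict (Cyl a b))
      (fun d => ENNReal.ofReal (hi a b d - lo a b d))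
      (ENNReal.measurable_ofReal.comp (measurable_lo a b))
    simp only [Function.comp_apply] at key
    rw [← e3, ← e4, volume_K_eq hab, ← key]
    refine setLIntegral_congr_fun (measurableSet_Cyl hab) ?_
    intro d hd
    simp only
    rw [← ENNReal.ofReal_add (sub_nonneg.2 (lo_le_hi hab hd)) (lo_nonneg a b d), sub_add_cancel]
  have hC := volume_Cyl_lt_top hab
  have hUfin : U ≠ ⊤ := by
    intro h
    rw [h, ENNReal.mul_top (by norm_num)] at e2
    exact absurd e2 hC.ne
  have hTU : T = U := by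
    have : T + U = U + U := by rw [← e1, e2, two_mul]
    exact (ENNReal.add_left_inj hUfin).1 this
  have hSfin : S ≠ ⊤ := by
    have h1 : S ≤ 2 * volume (Cyl a b) := by
      rw [← e4]
      calc ∫⁻ d in Cyl a b, ENNReal.ofReal (lo a b d)
          ≤ ∫⁻ d in Cyl a b, 2 := by
            refine setLIntegral_mono measurable_const ?_
            intro d hd
            have h5 := (lo_le_hi hab hd).trans (hi_le_two a b d)
            calc ENNReal.ofReal (lo a b d) ≤ ENNReal.ofReal 2 := ENNReal.ofReal_le_ofReal h5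
              _ = 2 := by norm_num
        _ = 2 * volume (Cyl a b) := by simp
    exact ne_top_of_le_ne_top (ENNReal.mul_ne_top (by norm_num) hC.ne) h1
  have e6 : volume (K V) = 2 * T := (ENNReal.add_left_inj hSfin).1 e5
  rw [e6, e2, hTU]

end

end Pool.Agent.Work.MP_9bb3e3_co
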