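import Pool.Agent.Work.MP_9bb3e3_co.Glue

/-!
# Part II: the recursion inequality
-/

namespace Pool.Agent.Work.MP_9bb3e3_co

open MeasureTheory Set

section

variable {B : Type*} [DecidableEq B] [Fintype B]

/-- The cylinder in split coordinates. -/
def C2 (B : Type*) [DecidableEq B] : Set ((E (Option B) → ℝ) × (Option B → ℝ)) :=
  {p | p.1 ∈ K (Option B) ∧ ((0 ≤ p.2 none ∧ p.2 none ≤ 1) ∧
    (fun c => p.2 (some c)) ∈ {x : B → ℝ | (res p.1, x) ∈ K2 B})}

lemma measurableSet_C2 : MeasurableSet (C2 B) := by
  unfold C2
  refine MeasurableSet.inter (measurableSet_K.preimage measurable_fst) (MeasurableSet.inter ?_ ?_)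
  · exact (measurableSet_Icc (a := (0:ℝ)) (b := 1)).preimage
      ((measurable_pi_apply none).comp measurable_snd)
  · have : Measurable (fun p : (E (Option B) → ℝ) × (Option B → ℝ) =>
        ((res p.1, fun c => p.2 (some c)) : (E B → ℝ) × (B → ℝ))) :=
      (measurable_res.comp measurable_fst).prodMk
        (measurable_pi_lambda _ fun c => (measurable_pi_apply _).comp measurable_snd)
    exact measurableSet_K2.preimage this

omit [Fintype B] [DecidableEq B] in
lemma none_ne : (none : Option (Option B)) ≠ some none := by simp

lemma mem_Cyl_iff (d : E (Option (Option B)) → ℝ) :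
    d ∈ Cyl (none : Option (Option B)) (some none) ↔ (res d, ext' d) ∈ C2 B := by
  have hE : ∀ (t : ℝ) (u v : Option B),
      D (upd d (none : Option (Option B)) (some none) t) (some u) (some v)
        = D d (some u) (some v) := by
    intro t u v
    apply D_upd_other
    simp
  have hres : ∀ t : ℝ, res (upd d (none : Option (Option B)) (some none) t) = res d := by
    intro t
    funext e
    obtain ⟨e, he⟩ := e
    induction e using Sym2.ind with
    | _ u v =>
      have huv : u ≠ v := by simpa using he
      have h1 := hE t u v
      rw [← D_res, ← D_res, D_of_ne _ huv, D_of_ne _ huv] at h1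
      exact h1
  have hx : ∀ (t : ℝ) (c : B), ext' (upd d (none : Option (Option B)) (some none) t) (some c)
      = ext' d (some c) := by
    intro t c
    rw [ext'_apply, ext'_apply]
    exact D_upd_left _ _ _ _ (by simp) (by simp)
  have hx0 : ∀ (t : ℝ), ext' (upd d (none : Option (Option B)) (some none) t) none = t := by
    intro t
    rw [ext'_apply]
    exact D_upd_self _ none_ne _
  have hd0 : ext' d none = D d none (some none) := ext'_apply d none
  constructor
  · rintro ⟨h1, t, ht⟩
    rw [mem_K_option_iff, hres] at ht
    refine ⟨ht.1, ?_, ?_⟩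
    · simp only
      rw [hd0]
      exact h1
    · have h2 := (mem_K_option_iff (res d)).1 ht.1
      refine ⟨h2.1, ?_, ?_⟩
      · intro c
        have := ht.2.1 (some c)
        simp only [hx] at this
        exact this
      · intro c c' hcc
        have := ht.2.2 (some c) (some c') (fun h => hcc (Option.some_injective B h))
        simp only [hx] at this
        rw [← D_res] at this
        exact this
  · rintro ⟨h1, h2, h3⟩
    simp only at h1 h2 h3
    rw [hd0] at h2
    refine ⟨h2, ?_⟩
    -- distances from the two extra points
    set x : B → ℝ := fun c => ext' d (some c) with hxdef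
    set y : B → ℝ := fun c => D (res d) none (some c) with hydef
    have h4 := (mem_K_option_iff (res d)).1 h1
    have hy : ext' (res d) = y := by
      funext c
      rw [ext'_apply]
    rw [hy] at h4
    obtain ⟨hK, hx1, hx2⟩ := h3
    obtain ⟨_, hy1, hy2⟩ := h4
    simp only at hK hx1 hx2 hy1 hy2
    -- the choice of `t`
    let g : Option B → ℝ := fun o => match o with
      | none => 0
      | some c => |x c - y c|
    let t : ℝ := (Finset.univ : Finset (Option B)).sup' (univ_ne none) g
    have hg : ∀ o, g o ≤ t := fun o => Finset.le_sup' g (Finset.mem_univ o)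
    have ht0 : 0 ≤ t := hg none
    have htc : ∀ c, |x c - y c| ≤ t := fun c => hg (some c)
    have ht2 : t ≤ 2 := by
      refine Finset.sup'_le _ _ ?_
      rintro (_ | c) _
      · simp [g]
      · simp only [g]
        rw [abs_le]
        constructor <;> linarith [(hx1 c).1, (hx1 c).2, (hy1 c).1, (hy1 c).2]
    have htu : ∀ c, t ≤ x c + y c := by
      intro c
      refine Finset.sup'_le _ _ ?_
      rintro (_ | c') _
      · simp only [g]
        linarith [(hx1 c).1, (hy1 c).1]
      · simp only [g]
        by_cases hcc : c = c'
        · subst hcc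
          rw [abs_le]
          constructor <;> linarith [(hx1 c).1, (hx1 c).2, (hy1 c).1, (hy1 c).2]
        · have e1 := hx2 c c' hcc
          have e2 := hy2 c c' hcc
          have e3 := hx2 c' c (fun h => hcc h.symm)
          have e4 := hy2 c' c (fun h => hcc h.symm)
          rw [D_comm _ c' c] at e3 e4
          rw [abs_le]
          constructor <;> linarith [e1.1, e1.2, e2.1, e2.2, e3.1, e3.2, e4.1, e4.2]
    refine ⟨t, ?_⟩
    rw [mem_K_option_iff, hres]
    refine ⟨h1, ?_, ?_⟩
    · rintro (_ | c)
      · simp only [hx0]
        exact ⟨ht0, ht2⟩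
      · simp only [hx]
        exact hx1 c
    · rintro (_ | c) (_ | c') hcc
      · exact absurd rfl hcc
      · simp only [hx, hx0]
        have e1 := htc c'
        have e2 := htu c'
        rw [abs_le] at e1
        change y c' ≤ t + x c' ∧ t ≤ x c' + y c'
        constructor <;> linarith [e1.1, e1.2]
      · simp only [hx, hx0]
        have e1 := htc c
        have e2 := htu c
        rw [abs_le] at e1
        rw [D_comm]
        change y c ≤ x c + t ∧ x c ≤ t + y c
        constructor <;> linarith [e1.1, e1.2]
      · simp only [hx]
        have := hx2 c c' (fun h => hcc (by rw [h]))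
        rw [D_res] at this
        exact this

lemma volume_Cyl_option :
    volume (Cyl (none : Option (Option B)) (some none)) = ∫⁻ e, fib (B := B) e * fib e := by
  have h : Cyl (none : Option (Option B)) (some none)
      = (fun d : E (Option (Option B)) → ℝ => (res d, ext' d)) ⁻¹' (C2 B) := by
    ext d
    exact mem_Cyl_iff d
  rw [h, split_measurePreserving.measure_preimage measurableSet_C2.nullMeasurableSet]
  have h1 : (volume : Measure ((E (Option B) → ℝ) × (Option B → ℝ))) (C2 B)
      = ∫⁻ e', volume (Prod.mk e' ⁻¹' (C2 B)) := Measure.prod_apply measurableSet_C2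
  rw [h1]
  have h2 : ∀ e' : E (Option B) → ℝ, volume (Prod.mk e' ⁻¹' (C2 B))
      = (K2 B).indicator (fun p => fib p.1) (res e', ext' e') := by
    intro e'
    by_cases he : e' ∈ K (Option B)
    · have he2 := (mem_K_option_iff e').1 he
      rw [indicator_of_mem he2]
      have hA : MeasurableSet {x : B → ℝ | (res e', x) ∈ K2 B} :=
        measurableSet_K2.preimage measurable_prodMk_left
      rw [fib, ← lintegral_option_none _ hA]
      congr 1
      ext y
      constructor
      · rintro ⟨_, h3⟩
        exact h3
      · intro h3
        exact ⟨he, h3⟩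
    · have he2 : (res e', ext' e') ∉ K2 B := fun h3 => he ((mem_K_option_iff e').2 h3)
      rw [indicator_of_notMem he2]
      have : Prod.mk e' ⁻¹' (C2 B) = ∅ := by
        ext y
        simp only [mem_preimage, mem_empty_iff_false, iff_false]
        intro h3
        exact he h3.1
      rw [this, measure_empty]
  simp only [h2]
  have hmeas : Measurable ((K2 B).indicator (fun p : (E B → ℝ) × (B → ℝ) => fib p.1)) :=
    (measurable_fib.comp measurable_fst).indicator measurableSet_K2
  rw [split_measurePreserving.lintegral_comp hmeas]
  change ∫⁻ p, (K2 B).indicator (fun p : (E B → ℝ) × (B → ℝ) => fib p.1) p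
    ∂((volume : Measure (E B → ℝ)).prod (volume : Measure (B → ℝ))) = _
  rw [lintegral_prod _ hmeas.aemeasurable]
  refine lintegral_congr fun e => ?_
  have h3 : ∀ x : B → ℝ, (K2 B).indicator (fun p : (E B → ℝ) × (B → ℝ) => fib p.1) (e, x)
      = ({x : B → ℝ | (e, x) ∈ K2 B}).indicator (fun _ => fib e) x := by
    intro x
    by_cases hx : (e, x) ∈ K2 B
    · have hx' : x ∈ {x : B → ℝ | (e, x) ∈ K2 B} := hx
      rw [indicator_of_mem hx, indicator_of_mem hx']
    · have hx' : x ∉ {x : B → ℝ | (e, x) ∈ K2 B} := hx
      rw [indicator_of_notMem hx, indicator_of_notMem hx']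
  simp only [h3]
  have hA : MeasurableSet {x : B → ℝ | (e, x) ∈ K2 B} :=
    measurableSet_K2.preimage measurable_prodMk_left
  rw [lintegral_indicator hA, setLIntegral_const]
  rfl

/-- **The recursion inequality.** -/
theorem recursion [Nonempty B] :
    4 * volume (K (Option B)) ≤ volume (K (Option (Option B))) + 4 * volume (K B) := by
  obtain ⟨c⟩ := ‹Nonempty B›
  have h1 : volume (K (Option (Option B))) = ∫⁻ e, fib (B := B) e * fib e := by
    rw [volume_K_eq_volume_Cyl (none_ne (B := B)) ⟨some (some c), by simp, by simp⟩]
    exact volume_Cyl_option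
  have key := lintegral_add_left (μ := (volume : Measure (E B → ℝ)))
    (measurable_fib.mul measurable_fib)
    (fun e => 4 * (K B).indicator (1 : (E B → ℝ) → ENNReal) e)
  simp only [Pi.mul_apply] at key
  rw [h1, volume_K_option, ← lintegral_indicator_one (measurableSet_K (V := B)),
    ← lintegral_const_mul _ measurable_fib,
    ← lintegral_const_mul _ (measurable_one.indicator measurableSet_K), ← key]
  refine lintegral_mono fun e => ?_
  by_cases he : e ∈ K B
  · simp only [indicator_of_mem he, Pi.one_apply, mul_one]
    have hfin : fib e ≠ ⊤ := by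
      have hsub : {x : B → ℝ | (e, x) ∈ K2 B} ⊆ Set.pi univ (fun _ : B => Icc (0:ℝ) 2) := by
        intro x hx c _
        exact hx.2.1 c
      refine ne_top_of_le_ne_top ?_ (measure_mono hsub)
      rw [volume_pi_pi]
      simp only [Real.volume_Icc]
      exact (ENNReal.prod_lt_top (fun _ _ => ENNReal.ofReal_lt_top)).ne
    obtain ⟨r, hr⟩ : ∃ r : NNReal, (r : ENNReal) = fib e := ⟨(fib e).toNNReal,
      ENNReal.coe_toNNReal hfin⟩
    rw [← hr]
    have h5 : 4 * r ≤ r * r + 4 := by
      have : (4 * (r : ℝ)) ≤ (r : ℝ) * r + 4 := by nlinarith [sq_nonneg ((r : ℝ) - 2)]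
      exact_mod_cast this
    exact_mod_cast h5
  · simp only [fib_eq_zero he, mul_zero, zero_le]

end

end Pool.Agent.Work.MP_9bb3e3_co
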